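import Pool.Agent.H6.GS2.Targets
import Pool.Agent.H6.GS2.Bas
import Pool.Agent.H91.BS.ESM

/-!
# Theorem (G), MP_c59857_nt: row GEX
-/

set_option autoImplicit false

open Finset Pool.Agent.H6.N4D Pool.Agent.H93 Pool.Agent.H93.GS Pool.Agent.H6.GS2

namespace Pool.Agent.H76.GSW

/-- the multiples of `q` in a window -/
lemma gex_sum (q N n : ℕ) (hq : 1 ≤ q) (F : ℕ → ℂ) :
    ∑ m ∈ (Ioc n (n + N)).filter (fun m => q ∣ m), F m =
      ∑ x ∈ range ((n + N) / q - n / q), F (q * (n / q + 1 + x)) := by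
  symm
  have hq0 : 0 < q := hq
  apply Finset.sum_nbij' (fun x => q * (n / q + 1 + x)) (fun m => m / q - (n / q + 1))
  · intro x hx
    rw [mem_range] at hx
    rw [mem_filter, mem_Ioc]
    refine ⟨⟨?_, ?_⟩, Dvd.intro _ rfl⟩
    · have h1 : n < q * (n / q + 1) := Nat.lt_mul_div_succ n hq0
      have h2 : q * (n / q + 1) ≤ q * (n / q + 1 + x) := Nat.mul_le_mul_left _ (by omega)
      omega
    · have h1 : n / q + 1 + x ≤ (n + N) / q := by omega
      calc q * (n / q + 1 + x) ≤ q * ((n + N) / q) := Nat.mul_le_mul_left _ h1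
        _ ≤ n + N := Nat.mul_div_le _ _
  · intro m hm
    rw [mem_filter, mem_Ioc] at hm
    obtain ⟨⟨h1, h2⟩, k, rfl⟩ := hm
    rw [mem_range, Nat.mul_div_cancel_left _ hq0]
    have h3 : n / q < k := by
      rw [Nat.div_lt_iff_lt_mul hq0]
      rw [mul_comm] at h1
      exact h1
    have h4 : k ≤ (n + N) / q := by
      rw [Nat.le_div_iff_mul_le hq0]
      rw [mul_comm] at h2
      exact h2
    omega
  · intro x hx
    rw [Nat.mul_div_cancel_left _ hq0]
    omega
  · intro m hm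
    rw [mem_filter, mem_Ioc] at hm
    obtain ⟨⟨h1, h2⟩, k, rfl⟩ := hm
    rw [Nat.mul_div_cancel_left _ hq0]
    have h3 : n / q < k := by
      rw [Nat.div_lt_iff_lt_mul hq0]
      rw [mul_comm] at h1
      exact h1
    congr 1
    omega
  · intro x _
    rfl

/-- (GEX) the mean of an exponential. -/
theorem pf_GEX : T_GEX := by
  intro q N n γ hq hN hnd
  have hN0 : (0 : ℝ) < N := by exact_mod_cast hN
  have hq0 : (0 : ℝ) < q := by exact_mod_cast hq
  unfold ac
  rw [gex_sum q N n hq]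
  have h1 := Pool.Agent.H91.BS.geo_bound (q * γ) hnd (n / q + 1) ((n + N) / q - n / q)
  have h2 : ∑ x ∈ range ((n + N) / q - n / q), ee (γ * ((q * (n / q + 1 + x) : ℕ) : ℝ)) =
      ∑ x ∈ range ((n + N) / q - n / q), ee (q * γ * ((n / q + 1 + x : ℕ) : ℝ)) := by
    apply Finset.sum_congr rfl
    intro x _
    congr 1
    rw [Nat.cast_mul]
    ring
  rw [h2, norm_div, norm_mul, Complex.norm_natCast, Complex.norm_natCast]
  calc ‖∑ x ∈ range ((n + N) / q - n / q), ee (q * γ * ((n / q + 1 + x : ℕ) : ℝ))‖ * q / N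
      ≤ 1 / (2 * nd (q * γ)) * q / N := by
        apply div_le_div_of_nonneg_right _ hN0.le
        exact mul_le_mul_of_nonneg_right h1 hq0.le
    _ = q / (2 * N * nd (q * γ)) := by
        field_simp

end Pool.Agent.H76.GSW
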